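import Pool.Agent.Helper31.MHS.Goals2
import Pool.Agent.Helper46.MH.LSS

/-!
# Packet MHS-LSF: the simulation is computed in linear space
-/

namespace Pool.Agent.Helper98.MHS

open Pool.Agent.Helper65.LinSpace Pool.Agent.Helper31.MHS
open Pool.Agent.Helper65.RT (CT LSM Sim Par)
open Pool.Agent.Helper20.MH (LSS_stmt)

/-- The parallel machines are admissible. -/
theorem mach_ok (P : WP) (c τ X : ℕ) (hok : (P.sys c τ).Ok) (hE : 0 < P.E) (hG : 0 < P.G) :
    (P.mach c τ X).Ok := by
  have h := Pool.Agent.Helper46.MH.machOk (d := P.d) hok hE hG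
  exact
    { hσ := h.hσ
      ha := h.ha
      hb := h.hb
      hE := h.hE
      hG := h.hG
      hq := h.hq
      hg := h.hg
      ho := h.ho
      ht0 := h.ht0
      hroot := Nat.mod_lt _ (by positivity) }

/-- **Packet MHS-LSF.** -/
theorem lsf (hY : LSY_stmt) (hW : WOK_stmt) (hL : LSS_stmt) : LSF_stmt := by
  intro Q α _ P x c τ X hx h hPar hc hτ hX
  have hS := hY h hc hτ
  have hok : ∀ z X, ((P z).mach (c z) (τ z) X).Ok := fun z X =>
    mach_ok _ _ _ _ (hW (P z) (c z) (τ z) (h.pm.b3 z) (h.pm.b4 z)).1 (h.E0 z) (h.G0 z)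
  have hn := fun z => Q.nv ((P z).mach (c z) (τ z) 0) (x z) (hok z 0) (hPar z _ _ _)
  have hM : LSM (fun z => ((P z).sys (c z) (τ z)).mach (P z).E (P z).G (P z).d)
      (fun z => CT (x z)) :=
    hL hS h.E h.G h.d h.E0 h.G0 (fun z => (hn z).1) (fun z => (hn z).2)
  have hM' : LSM (fun z => (P z).mach (c z) (τ z) (X z)) (fun z => CT (x z)) :=
    { σ := hM.σ
      a := hM.a
      b := hM.b
      E := hM.E
      G := hM.G
      K := hM.K
      q := hM.q
      g := hM.g
      o := hM.o
      t0 := hM.t0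
      root := Pool.Agent.Helper46.MH.LS_mod2 hM.σ hX
      bd := hM.bd
      ok := fun z => hok z _
      hC := hM.hC
      hS := hM.hS }
  exact Q.ls hx hM' fun z => hPar z _ _ _

end Pool.Agent.Helper98.MHS
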